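import Pool.Agent.Y827.HN.Pat
import Pool.Agent.H461R2.PD.Comb

/-! # Almost all sets of `k` linear forms contain `5 k / 18` forms with all patterns of primes -/

set_option autoImplicit false

namespace Pool.Agent.U404.MU

open Finset Filter
open Pool.Agent.Y827.HN

/-- the forms with the indices in `J` -/
noncomputable def fm (φ : ℕ → ℤ × ℤ) (J : Finset ℕ) : Finset (ℤ × ℤ) := J.image φ

/-- all patterns of prime and composite values, along progressions of every length, at arbitrarily large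
heights -/
def Good (φ : ℕ → ℤ × ℤ) (J : Finset ℕ) : Prop :=
  ∀ l : ℕ, ∃ C : ℕ, ∃ᶠ N : ℕ in atTop, AllP ∅ l C N (fm φ J)

/-- a set of `T` forms which contains no good subset with `5 T / 18` elements -/
def Bad (φ : ℕ → ℤ × ℤ) (T : ℕ) (s : Finset ℕ) : Prop := ∀ J ⊆ s, 5 * T ≤ 18 * J.card → ¬ Good φ J

/-- the forms with the indices in `V` are different, primitive and without local obstructions -/
def Adm (φ : ℕ → ℤ × ℤ) (V : Finset ℕ) : Prop :=
  (∀ r ∈ V, 0 < (φ r).1 ∧ IsCoprime (φ r).1 (φ r).2) ∧ (∀ r ∈ V, ∀ r' ∈ V, φ r = φ r' → r = r') ∧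
    ∀ p : ℕ, p.Prime → ∃ x : ℤ, ∀ r ∈ V, ¬ (p : ℤ) ∣ (φ r).1 * x + (φ r).2

open Classical in
/-- few sets of `T` forms are bad -/
theorem few_bad {T : ℕ} (hT1 : 1 ≤ T) {δ : ℝ} (hδ : 0 < δ) :
    ∃ n₁ : ℕ, ∀ (φ : ℕ → ℤ × ℤ) (V : Finset ℕ), Adm φ V → n₁ ≤ V.card →
      (((V.powersetCard T).filter (Bad φ T)).card : ℝ) ≤ δ * (V.card : ℝ) ^ T := by
  obtain ⟨M, hM⟩ : ∃ M : ℕ, M = (5 * T - 1) / 18 := ⟨_, rfl⟩
  have hM1 : 18 * M < 5 * T := by omega
  have hM2 : 5 * T ≤ 18 * (M + 1) := by omega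
  obtain ⟨K, hK, hex⟩ := patR T M hT1 (by
    have : (18 : ℝ) * M < 5 * T := by exact_mod_cast hM1
    linarith)
  obtain ⟨n₀, hn₀⟩ := Pool.Agent.H461R2.PD.blowup K hK T δ hδ
  refine ⟨n₀, fun φ V hadm hn => ?_⟩
  obtain ⟨hpos, hinjφ, hloc⟩ := hadm
  by_contra hcon
  push Not at hcon
  obtain ⟨B, hB⟩ : ∃ B : Finset (Finset ℕ), B = (V.powersetCard T).filter (Bad φ T) := ⟨_, rfl⟩
  rw [← hB] at hcon
  obtain ⟨E, hE⟩ : ∃ E : Finset (Fin T → V), ∀ u, u ∈ E ↔ (StrictMono u ∧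
      Bad φ T (univ.image (fun g : Fin T => (u g : ℕ)))) :=
    ⟨(Set.toFinite {u : Fin T → V | StrictMono u ∧
      Bad φ T (univ.image (fun g : Fin T => (u g : ℕ)))}).toFinset,
      fun u => Set.Finite.mem_toFinset _⟩
  have hBE : B.card ≤ E.card := by
    refine (card_le_card (t := E.image (fun u : Fin T → V => univ.image (fun g : Fin T => (u g : ℕ)))) ?_).trans
      card_image_le
    intro s hs
    rw [hB, mem_filter, mem_powersetCard] at hs
    obtain ⟨⟨hs1, hs2⟩, hs3⟩ := hs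
    rw [mem_image]
    have himg : (univ : Finset (Fin T)).image (fun g => s.orderEmbOfFin hs2 g) = s := by
      apply coe_injective
      rw [coe_image, coe_univ, Set.image_univ]
      exact range_orderEmbOfFin s hs2
    refine ⟨fun g => ⟨s.orderEmbOfFin hs2 g, hs1 (orderEmbOfFin_mem s hs2 g)⟩, ?_, himg⟩
    rw [hE]
    refine ⟨fun g g' hgg => ?_, ?_⟩
    · exact (s.orderEmbOfFin hs2).strictMono hgg
    · show Bad φ T ((univ : Finset (Fin T)).image (fun g => s.orderEmbOfFin hs2 g))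
      rw [himg]
      exact hs3
  have hW : Fintype.card V = V.card := Fintype.card_coe V
  obtain ⟨A, hA1, hA2⟩ := hn₀ V (by rw [hW]; exact hn) E (by
    rw [hW]
    have : (B.card : ℝ) ≤ E.card := by exact_mod_cast hBE
    linarith)
  obtain ⟨H, hH1, hH2⟩ : ∃ H : Fin T → Fin K → V, (∀ g i, H g i ∈ A g) ∧ (∀ g, Function.Injective (H g)) :=
    ⟨fun g i => (A g).orderEmbOfFin (hA1 g) i, fun g i => orderEmbOfFin_mem _ _ _,
      fun g => ((A g).orderEmbOfFin (hA1 g)).injective⟩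
  have hord : ∀ g g' : Fin T, g < g' → ∀ i i' : Fin K, (H g i : ℕ) < H g' i' := by
    intro g g' hgg i i'
    have hu := hA2 (fun j => if j = g then H g i else if j = g' then H g' i' else H j ⟨0, by omega⟩) (fun j => by
      split_ifs with h1 h2
      · rw [h1]; exact hH1 g i
      · rw [h2]; exact hH1 g' i'
      · exact hH1 j _)
    rw [hE] at hu
    have h1 := hu.1 hgg
    simp only [if_true, if_neg hgg.ne'] at h1
    exact h1
  have hinj : Function.Injective (fun x : Fin T × Fin K => φ ((H x.1 x.2 : V) : ℕ)) := by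
    rintro ⟨g, i⟩ ⟨g', i'⟩ h
    have h1 : (H g i : ℕ) = H g' i' := hinjφ _ (H g i).2 _ (H g' i').2 h
    rcases lt_trichotomy g g' with h2 | h2 | h2
    · have := hord g g' h2 i i'
      omega
    · subst h2
      have h3 := hH2 g (Subtype.ext h1)
      rw [h3]
    · have := hord g' g h2 i' i
      omega
  have hcardJ : ∀ (S : Finset (Fin T)) (c : Fin T → Fin K), (S.image (fun g => (H g (c g) : ℕ))).card = S.card := by
    intro S c
    apply card_image_of_injective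
    intro g g' h
    rcases lt_trichotomy g g' with h2 | h2 | h2
    · have := hord g g' h2 (c g) (c g')
      simp only at h
      omega
    · exact h2
    · have := hord g' g h2 (c g') (c g)
      simp only at h
      omega
  -- every large part of every transversal is bad
  have hbad : ∀ x : Finset (Fin T) × (Fin T → Fin K), ∃ l : ℕ, M + 1 ≤ x.1.card → ∀ C : ℕ,
      ¬ ∃ᶠ N : ℕ in atTop, AllP ∅ l C N (fm φ (x.1.image (fun g => (H g (x.2 g) : ℕ)))) := by
    intro x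
    by_cases hS : M + 1 ≤ x.1.card
    · have hu := hA2 (fun g => H g (x.2 g)) (fun g => hH1 g (x.2 g))
      rw [hE] at hu
      have h1 := hu.2 (x.1.image (fun g => (H g (x.2 g) : ℕ))) (image_subset_image (subset_univ _)) (by
        rw [hcardJ]
        omega)
      unfold Good at h1
      push Not at h1
      obtain ⟨l, hl⟩ := h1
      exact ⟨l, fun _ C h => by
        have := hl C
        exact h (by simpa using this)⟩
    · exact ⟨0, fun h => absurd h hS⟩
  choose lf hlf using hbad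
  obtain ⟨L, hL⟩ : ∃ L : ℕ, ∀ x, lf x ≤ L := ⟨univ.sup lf, fun x => le_sup (mem_univ x)⟩
  obtain ⟨C, hC⟩ := hex (fun g i => φ ((H g i : V) : ℕ)) hinj (fun g i => hpos _ (H g i).2) (by
    intro p hp _
    obtain ⟨x, hx⟩ := hloc p hp
    exact ⟨x, fun g i => hx _ (H g i).2⟩) ∅ (by simp) L
  have hall : ∀ᶠ N : ℕ in atTop, ∀ x : Finset (Fin T) × (Fin T → Fin K), M + 1 ≤ x.1.card →
      ¬ AllP ∅ (lf x) C N (fm φ (x.1.image (fun g => (H g (x.2 g) : ℕ)))) := by
    rw [eventually_all]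
    intro x
    by_cases hS : M + 1 ≤ x.1.card
    · exact (not_frequently.1 (hlf x hS C)).mono fun N hN _ => hN
    · exact Filter.Eventually.of_forall fun N h => absurd h hS
  obtain ⟨N, hN1, hN2⟩ := (hC.and hall).exists
  obtain ⟨S, cc, hS, hP⟩ := hN1
  refine hN2 (S, cc) hS (AllP_len (Subset.refl _) (hL (S, cc)) ?_)
  have he : fm φ (S.image (fun g => (H g (cc g) : ℕ))) = S.image (fun g => φ ((H g (cc g) : V) : ℕ)) := by
    unfold fm
    rw [image_image]
    rfl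
  rw [he]
  exact hP

/-- the binomial coefficient from below -/
lemma choose_lower {n k : ℕ} (h : 2 * k ≤ n) : (n : ℝ) ^ k ≤ (2 : ℝ) ^ k * (k.factorial : ℝ) * (n.choose k : ℝ) := by
  have h1 : (((n + 1 - k : ℕ) : ℝ)) ^ k ≤ (k.factorial : ℝ) * (n.choose k : ℝ) := by
    have h2 := Nat.pow_sub_le_descFactorial n k
    rw [Nat.descFactorial_eq_factorial_mul_choose] at h2
    exact_mod_cast h2
  have h3 : (n : ℝ) ≤ 2 * ((n + 1 - k : ℕ) : ℝ) := by
    have : n ≤ 2 * (n + 1 - k) := by omega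
    exact_mod_cast this
  calc (n : ℝ) ^ k ≤ (2 * ((n + 1 - k : ℕ) : ℝ)) ^ k := pow_le_pow_left₀ (Nat.cast_nonneg _) h3 _
    _ = (2 : ℝ) ^ k * (((n + 1 - k : ℕ) : ℝ)) ^ k := mul_pow _ _ _
    _ ≤ (2 : ℝ) ^ k * ((k.factorial : ℝ) * (n.choose k : ℝ)) :=
      mul_le_mul_of_nonneg_left h1 (by positivity)
    _ = _ := by ring

open Classical in
/-- **almost all sets of `k` forms** -/
theorem typical {k : ℕ} (hk : 1 ≤ k) {ε : ℝ} (hε : 0 < ε) :
    ∃ n₀ : ℕ, ∀ (φ : ℕ → ℤ × ℤ) (V : Finset ℕ), Adm φ V → n₀ ≤ V.card →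
      (((V.powersetCard k).filter (Bad φ k)).card : ℝ) ≤ ε * (V.card.choose k : ℝ) := by
  have hc : (0 : ℝ) < (2 : ℝ) ^ k * (k.factorial : ℝ) := by
    have : (0 : ℝ) < (k.factorial : ℝ) := by exact_mod_cast Nat.factorial_pos k
    positivity
  obtain ⟨n₁, h1⟩ := few_bad hk (δ := ε / ((2 : ℝ) ^ k * (k.factorial : ℝ))) (div_pos hε hc)
  refine ⟨max n₁ (2 * k), fun φ V hV hn => ?_⟩
  refine (h1 φ V hV ((le_max_left _ _).trans hn)).trans ?_
  have h2 := choose_lower (n := V.card) (k := k) ((le_max_right _ _).trans hn)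
  calc ε / ((2 : ℝ) ^ k * (k.factorial : ℝ)) * (V.card : ℝ) ^ k
      ≤ ε / ((2 : ℝ) ^ k * (k.factorial : ℝ)) * ((2 : ℝ) ^ k * (k.factorial : ℝ) * (V.card.choose k : ℝ)) :=
        mul_le_mul_of_nonneg_left h2 (div_pos hε hc).le
    _ = ε * (V.card.choose k : ℝ) := by
        field_simp

/-- the places where exactly the forms with the indices in `A` are prime -/
lemma good_count {φ : ℕ → ℤ × ℤ} {J : Finset ℕ} (hφ : ∀ r ∈ J, ∀ r' ∈ J, φ r = φ r' → r = r') (h : Good φ J)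
    (l : ℕ) : ∃ C : ℕ, ∃ᶠ N : ℕ in atTop, ∀ A ⊆ J, ∃ d : ℕ, 1 ≤ d ∧
    (d : ℝ) ≤ (Real.log N) ^ C ∧ (N : ℝ) / (Real.log N) ^ C ≤
      ({n : ℕ | 1 ≤ n ∧ n ≤ N ∧ ∀ i < l, ∀ r ∈ J,
        ((φ r).1 * ((n + i * d : ℕ) : ℤ) + (φ r).2).toNat.Prime ↔ r ∈ A}.ncard : ℝ) := by
  classical
  obtain ⟨C, hC⟩ := h l
  refine ⟨C, hC.mono fun N hN A hA => ?_⟩
  obtain ⟨d, hd1, hd2, hd3⟩ := hN (fm φ A) (by
    unfold fm
    exact image_subset_image hA)
  refine ⟨d, hd1, hd2, hd3.trans ?_⟩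
  rw [Nat.cast_le]
  unfold cntX
  rw [← Set.ncard_coe_finset]
  refine Set.ncard_le_ncard ?_ (Set.Finite.subset (Set.finite_Icc 1 N) fun n hn => ⟨hn.1, hn.2.1⟩)
  intro n hn
  rw [mem_coe, mem_filter, mem_Icc] at hn
  obtain ⟨⟨hn1, hn2⟩, hn3⟩ := hn
  refine ⟨by omega, hn2, fun i hi r hr => ?_⟩
  obtain ⟨h1, h2⟩ := hn3 i hi
  constructor
  · intro hp
    by_contra hrA
    have hm1 : φ r ∈ fm φ J := by
      unfold fm
      exact mem_image_of_mem _ hr
    have hm2 : φ r ∉ fm φ A := by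
      intro hm
      unfold fm at hm
      obtain ⟨r', hr', he⟩ := mem_image.1 hm
      have h4 : r' = r := hφ r' (hA hr') r hr he
      rw [h4] at hr'
      exact hrA hr'
    exact h2 (φ r) (mem_union_left _ (mem_sdiff.2 ⟨hm1, hm2⟩)) hp
  · intro hrA
    exact h1 (φ r) (by
      unfold fm
      exact mem_image_of_mem _ hrA)

end Pool.Agent.U404.MU
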